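import Pool.Agent.V1134.Solomon

namespace Pool.Agent.Results.MP_405423_al.QuotientSemiRational

/-- The number of solutions of `w = g` in `G`, for a word `w` in `r` variables. -/
noncomputable def N {r : ℕ} (w : FreeGroup (Fin r)) {G : Type} [Group G] (g : G) : ℕ :=
  Nat.card {v : Fin r → G // FreeGroup.lift v w = g}

/-- The standard inner product of the class function `N w` and the character of `ρ`. -/
noncomputable def coeff {r : ℕ} (w : FreeGroup (Fin r)) {G : Type} [Group G]
    {V : Type} [AddCommGroup V] [Module ℂ V] (ρ : Representation ℂ G V) : ℂ :=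
  (Nat.card G : ℂ)⁻¹ * ∑ᶠ g : G, (N w g : ℂ) * (starRingEnd ℂ) (ρ.character g)

/-- A finite group is semi-rational if for every `r ≥ 1` and every word `w` in `r` variables the
inner product of the word counting function with every complex irreducible character is an
integer. -/
def SemiRational (G : Type) [Group G] : Prop :=
  ∀ (r : ℕ), 1 ≤ r → ∀ (w : FreeGroup (Fin r)) (V : Type) [AddCommGroup V] [Module ℂ V]
    [FiniteDimensional ℂ V] (ρ : Representation ℂ G V), ρ.IsIrreducible →
    ∃ m : ℤ, coeff w ρ = m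

section integrality

theorem isIntegral_character {G : Type} [Group G] [Finite G] {V : Type} [AddCommGroup V]
    [Module ℂ V] [FiniteDimensional ℂ V] (ρ : Representation ℂ G V) (g : G) :
    IsIntegral ℤ (ρ.character g) := by
  have h1 : ρ.character g = (ρ g).charpoly.roots.sum :=
    Module.End.trace_eq_sum_roots_charpoly_of_splits (IsAlgClosed.splits _)
  rw [h1]
  apply IsIntegral.multiset_sum
  intro μ hμ
  have hroot : (ρ g).charpoly.IsRoot μ := (Polynomial.mem_roots'.1 hμ).2
  have hev : Module.End.HasEigenvalue (ρ g) μ :=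
    (Module.End.hasEigenvalue_iff_isRoot_charpoly (ρ g) μ).2 hroot
  obtain ⟨v, hv⟩ := hev.exists_hasEigenvector
  have hn : 0 < Nat.card G := Nat.card_pos
  have h2 : (ρ g) ^ Nat.card G = 1 := by
    rw [← map_pow, pow_card_eq_one', map_one]
  have h3 : ((ρ g) ^ Nat.card G) v = μ ^ Nat.card G • v := hv.pow_apply _
  rw [h2] at h3
  have h4 : (μ ^ Nat.card G - 1) • v = 0 := by
    rw [sub_smul, one_smul, ← h3]
    simp
  have h5 : μ ^ Nat.card G = 1 := by
    rcases smul_eq_zero.1 h4 with h | h
    · exact sub_eq_zero.1 h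
    · exact absurd h hv.2
  exact IsIntegral.of_pow hn (by rw [h5]; exact isIntegral_one)

open scoped Classical in
theorem isIntegral_sum_of_invariant {K X : Type} [Group K] [Fintype X] [MulAction K X]
    (f : X → ℂ) (hinv : ∀ (k : K) (x : X), f (k • x) = f x)
    (h : ∀ x, IsIntegral ℤ ((Nat.card (MulAction.orbit K x) : ℂ) * f x)) :
    IsIntegral ℤ (∑ x, f x) := by
  let q : X → MulAction.orbitRel.Quotient K X := fun x => Quotient.mk _ x
  rw [← Finset.sum_fiberwise_of_maps_to (g := q) (t := Finset.univ.image q)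
    (fun x hx => Finset.mem_image_of_mem q hx)]
  apply IsIntegral.sum
  intro w hw
  obtain ⟨x₀, -, rfl⟩ := Finset.mem_image.1 hw
  have h1 : ∀ x, q x = q x₀ ↔ x ∈ MulAction.orbit K x₀ := by
    intro x
    exact Quotient.eq.trans MulAction.orbitRel_apply
  have h2 : ∀ x ∈ Finset.univ.filter (fun x => q x = q x₀), f x = f x₀ := by
    intro x hx
    rw [Finset.mem_filter, h1] at hx
    obtain ⟨k, hk⟩ := hx.2
    rw [← hk]
    exact hinv k x₀
  rw [Finset.sum_congr rfl h2, Finset.sum_const, nsmul_eq_mul]
  have h3 : (Finset.univ.filter (fun x => q x = q x₀)).card =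
      Nat.card (MulAction.orbit K x₀) := by
    rw [Nat.card_eq_fintype_card, ← Set.toFinset_card]
    congr 1
    ext x
    simp only [Finset.mem_filter, Finset.mem_univ, true_and, Set.mem_toFinset]
    exact h1 x
  rw [h3]
  exact h x₀

theorem N_conj {r : ℕ} (w : FreeGroup (Fin r)) {G : Type} [Group G] (h g : G) :
    N w (h * g * h⁻¹) = N w g := by
  have hlift : ∀ v : Fin r → G, FreeGroup.lift (fun i => h * v i * h⁻¹) w =
      h * FreeGroup.lift v w * h⁻¹ := by
    intro v
    have h1 : FreeGroup.lift (fun i => h * v i * h⁻¹) =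
        (MulAut.conj h).toMonoidHom.comp (FreeGroup.lift v) := by
      ext i
      simp
    rw [h1]
    rfl
  unfold N
  refine (Nat.card_congr (Equiv.subtypeEquiv
    (Equiv.piCongrRight (fun _ : Fin r => (MulAut.conj h).toEquiv)) ?_)).symm
  intro v
  show _ ↔ FreeGroup.lift (fun i => h * v i * h⁻¹) w = h * g * h⁻¹
  rw [hlift]
  constructor
  · intro h2
    rw [h2]
  · intro h2
    exact mul_left_cancel (mul_right_cancel h2)

theorem isIntegral_coeff {r : ℕ} (hr : 2 ≤ r) (w : FreeGroup (Fin r)) {G : Type} [Group G]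
    [Finite G] {V : Type} [AddCommGroup V] [Module ℂ V] [FiniteDimensional ℂ V]
    (ρ : Representation ℂ G V) : IsIntegral ℤ (coeff w ρ) := by
  have := Fintype.ofFinite G
  have hG0 : (Nat.card G : ℂ) ≠ 0 := by exact_mod_cast Nat.card_pos.ne'
  unfold coeff
  rw [finsum_eq_sum_of_fintype, Finset.mul_sum]
  apply isIntegral_sum_of_invariant (K := ConjAct G)
  · intro k x
    rw [ConjAct.smul_def, N_conj, Representation.char_conj]
  · intro x
    obtain ⟨m, hm⟩ := Pool.Agent.V1134.Solomon.solomon hr w x
    have horb : Nat.card (MulAction.orbit (ConjAct G) x) *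
        Nat.card (Subgroup.centralizer {x}) = Nat.card G := by
      rw [Subgroup.nat_card_centralizer_nat_card_stabilizer, Nat.card_coe_set_eq,
        ← MulAction.index_stabilizer, Subgroup.index_mul_card]
      rfl
    have h1 : (Nat.card (MulAction.orbit (ConjAct G) x) : ℂ) *
        ((Nat.card G : ℂ)⁻¹ * ((N w x : ℂ) * (starRingEnd ℂ) (ρ.character x))) =
        (m : ℂ) * (starRingEnd ℂ) (ρ.character x) := by
      have hN : (N w x : ℂ) = (Nat.card (Subgroup.centralizer ({x} : Set G)) : ℂ) * m := by
        have : N w x = Nat.card (Subgroup.centralizer ({x} : Set G)) * m := hm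
        rw [this]
        push_cast
        ring
      have horb' : (Nat.card (MulAction.orbit (ConjAct G) x) : ℂ) *
          (Nat.card (Subgroup.centralizer ({x} : Set G)) : ℂ) = Nat.card G := by
        exact_mod_cast horb
      rw [hN]
      field_simp
      linear_combination (m : ℂ) * (starRingEnd ℂ) (ρ.character x) * horb'
    rw [h1]
    apply IsIntegral.mul
    · exact isIntegral_algebraMap (R := ℤ) (A := ℂ) (x := (m : ℤ))
    · exact (isIntegral_character ρ x).map ((starRingEnd ℂ).toIntAlgHom)

theorem exists_int_of_rat {z : ℂ} (hz : IsIntegral ℤ z) (q : ℚ) (hq : z = (q : ℂ)) :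
    ∃ m : ℤ, z = m := by
  have h1 : IsIntegral ℤ q := by
    rw [← isIntegral_algebraMap_iff (A := ℚ) (B := ℂ) (algebraMap ℚ ℂ).injective]
    rw [hq] at hz
    exact hz
  obtain ⟨m, hm⟩ := IsIntegrallyClosed.isIntegral_iff.1 h1
  refine ⟨m, ?_⟩
  rw [hq, ← hm]
  simp

end integrality

section inflation

theorem sum_comp_surj {A B : Type} [Group A] [Group B] [Fintype A] [Fintype B] (φ : A →* B)
    (hφ : Function.Surjective φ) (f : B → ℂ) :
    (Fintype.card B : ℂ) * ∑ a, f (φ a) = Fintype.card A * ∑ b, f b := by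
  have h1 : ∑ b : B, ∑ a : A, f (b * φ a) = Fintype.card B * ∑ a, f (φ a) := by
    have : ∀ b : B, ∑ a : A, f (b * φ a) = ∑ a, f (φ a) := by
      intro b
      obtain ⟨c, rfl⟩ := hφ b
      have h2 : ∀ a, f (φ c * φ a) = f (φ (c * a)) := fun a => by rw [map_mul]
      rw [Finset.sum_congr rfl (fun a _ => h2 a)]
      exact Equiv.sum_comp (Equiv.mulLeft c) (fun a => f (φ a))
    rw [Finset.sum_congr rfl (fun b _ => this b), Finset.sum_const, nsmul_eq_mul,
      Finset.card_univ]
  have h3 : ∑ b : B, ∑ a : A, f (b * φ a) = Fintype.card A * ∑ b, f b := by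
    rw [Finset.sum_comm]
    have : ∀ a : A, ∑ b : B, f (b * φ a) = ∑ b, f b := by
      intro a
      exact Equiv.sum_comp (Equiv.mulRight (φ a)) f
    rw [Finset.sum_congr rfl (fun a _ => this a), Finset.sum_const, nsmul_eq_mul,
      Finset.card_univ]
  rw [← h1, h3]

theorem sum_words {r : ℕ} (w : FreeGroup (Fin r)) {G : Type} [Group G] [Fintype G]
    (f : G → ℂ) : ∑ g : G, (N w g : ℂ) * f g = ∑ v : Fin r → G, f (FreeGroup.lift v w) := by
  classical
  rw [← Finset.sum_fiberwise Finset.univ (fun v : Fin r → G => FreeGroup.lift v w)]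
  apply Finset.sum_congr rfl
  intro g _
  have h1 : ∀ v ∈ Finset.univ.filter (fun v : Fin r → G => FreeGroup.lift v w = g),
      f (FreeGroup.lift v w) = f g := by
    intro v hv
    rw [(Finset.mem_filter.1 hv).2]
  rw [Finset.sum_congr rfl h1, Finset.sum_const, nsmul_eq_mul]
  congr 2
  unfold N
  rw [Nat.card_eq_fintype_card, Fintype.card_subtype]

/-- The inflation of a representation of a quotient group. -/
def infl {G : Type} [Group G] (K : Subgroup G) [K.Normal] {V : Type} [AddCommGroup V]
    [Module ℂ V] (ρ : Representation ℂ (G ⧸ K) V) : Representation ℂ G V :=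
  ρ.comp (QuotientGroup.mk' K)

theorem infl_irreducible {G : Type} [Group G] (K : Subgroup G) [K.Normal] {V : Type}
    [AddCommGroup V] [Module ℂ V] (ρ : Representation ℂ (G ⧸ K) V) (h : ρ.IsIrreducible) :
    (infl K ρ).IsIrreducible := by
  let e : Subrepresentation (infl K ρ) ≃o Subrepresentation ρ :=
    { toFun := fun S => ⟨S.toSubmodule, by
        intro g v hv
        obtain ⟨g', rfl⟩ := QuotientGroup.mk'_surjective K g
        exact S.apply_mem_toSubmodule g' hv⟩
      invFun := fun S => ⟨S.toSubmodule, fun g v hv =>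
        S.apply_mem_toSubmodule (QuotientGroup.mk' K g) hv⟩
      left_inv := fun S => rfl
      right_inv := fun S => rfl
      map_rel_iff' := Iff.rfl }
  exact (OrderIso.isSimpleOrder_iff e).2 h

theorem coeff_infl {r : ℕ} (w : FreeGroup (Fin r)) {G : Type} [Group G] [Finite G]
    (K : Subgroup G) [K.Normal] {V : Type} [AddCommGroup V] [Module ℂ V]
    (ρ : Representation ℂ (G ⧸ K) V) :
    (Nat.card (G ⧸ K) : ℂ) ^ r * (Nat.card G : ℂ) * coeff w (infl K ρ) =
      (Nat.card G : ℂ) ^ r * (Nat.card (G ⧸ K) : ℂ) * coeff w ρ := by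
  classical
  have := Fintype.ofFinite G
  have := Fintype.ofFinite (G ⧸ K)
  have hG0 : (Nat.card G : ℂ) ≠ 0 := by exact_mod_cast Nat.card_pos.ne'
  have hH0 : (Nat.card (G ⧸ K) : ℂ) ≠ 0 := by exact_mod_cast Nat.card_pos.ne'
  have hlift : ∀ v : Fin r → G, FreeGroup.lift (fun i => (QuotientGroup.mk' K) (v i)) w =
      QuotientGroup.mk' K (FreeGroup.lift v w) := by
    intro v
    have h1 : FreeGroup.lift (fun i => (QuotientGroup.mk' K) (v i)) =
        (QuotientGroup.mk' K).comp (FreeGroup.lift v) := by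
      ext i
      simp
    rw [h1]
    rfl
  have hsurj : Function.Surjective ((QuotientGroup.mk' K).compLeft (Fin r)) := by
    intro v
    choose u hu using fun i => QuotientGroup.mk'_surjective K (v i)
    exact ⟨u, funext hu⟩
  have h1 := sum_comp_surj ((QuotientGroup.mk' K).compLeft (Fin r)) hsurj
    (fun v => (starRingEnd ℂ) (ρ.character (FreeGroup.lift v w)))
  rw [Fintype.card_pi, Fintype.card_pi, Finset.prod_const, Finset.prod_const, Finset.card_univ,
    Fintype.card_fin, ← Nat.card_eq_fintype_card, ← Nat.card_eq_fintype_card] at h1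
  unfold coeff
  rw [finsum_eq_sum_of_fintype, finsum_eq_sum_of_fintype, sum_words, sum_words]
  have h2 : ∀ v : Fin r → G, (starRingEnd ℂ) ((infl K ρ).character (FreeGroup.lift v w)) =
      (starRingEnd ℂ) (ρ.character (FreeGroup.lift
        (((QuotientGroup.mk' K).compLeft (Fin r)) v) w)) := by
    intro v
    have h3 : FreeGroup.lift (((QuotientGroup.mk' K).compLeft (Fin r)) v) w =
      QuotientGroup.mk' K (FreeGroup.lift v w) := hlift v
    rw [h3]
    rfl
  rw [Finset.sum_congr rfl (fun v _ => h2 v)]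
  push_cast at h1
  field_simp
  linear_combination h1

end inflation

/-- Every quotient of a finite semi-rational group is semi-rational. -/
theorem result (G : Type) [Group G] [Finite G] (hG : SemiRational G) (K : Subgroup G) [K.Normal] :
    SemiRational (G ⧸ K) := by
  intro r hr w V _ _ _ ρ hρ
  obtain ⟨m, hm⟩ := hG r hr w V (infl K ρ) (infl_irreducible K ρ hρ)
  have h1 := coeff_infl w K ρ
  have hG0 : (Nat.card G : ℂ) ≠ 0 := by exact_mod_cast Nat.card_pos.ne'
  have hH0 : (Nat.card (G ⧸ K) : ℂ) ≠ 0 := by exact_mod_cast Nat.card_pos.ne'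
  rw [hm] at h1
  rcases Nat.lt_or_ge r 2 with hr2 | hr2
  · have : r = 1 := by omega
    subst this
    refine ⟨m, ?_⟩
    rw [pow_one, pow_one] at h1
    have h2 : ((Nat.card G : ℂ) * (Nat.card (G ⧸ K) : ℂ)) * coeff w ρ =
        ((Nat.card G : ℂ) * (Nat.card (G ⧸ K) : ℂ)) * m := by
      linear_combination -h1
    exact mul_left_cancel₀ (mul_ne_zero hG0 hH0) h2
  · apply exists_int_of_rat (isIntegral_coeff hr2 w ρ)
      ((Nat.card (G ⧸ K) : ℚ) ^ r * (Nat.card G : ℚ) * m /
        ((Nat.card G : ℚ) ^ r * (Nat.card (G ⧸ K) : ℚ)))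
    push_cast
    rw [eq_div_iff (mul_ne_zero (pow_ne_zero _ hG0) hH0)]
    linear_combination -h1

end Pool.Agent.Results.MP_405423_al.QuotientSemiRational
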